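import Pool.Agent.W998.KG.Stm

/-!
KG-STA: a non-colourable graph all but one edge of which can be coloured has a state.
-/

set_option autoImplicit false

namespace Pool.Agent.W52.KG.STA

open Pool.Agent.Results.MP_633d19_co.SmallDegree
open Pool.Agent.Results.MP_633d19_co.SmallDegree.MGraph
open Pool.Agent.W998.KG

theorem main : PartSTA := by
  classical
  intro V E _ _ G k Δ hk hdeg hG e0 hdel
  obtain ⟨c0, hc0⟩ := hdel
  set c : E → Option (Fin k) := fun e => if h : e ≠ e0 then some (c0 ⟨e, h⟩) else none with hcdef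
  have hnone : ∀ e, c e = none ↔ e = e0 := by
    intro e
    simp only [hcdef]
    by_cases h : e = e0
    · simp [h]
    · simp [h]
  have hc : G.PP c := by
    intro e f u a he hf h1 h2
    by_contra hef
    have he0 : e ≠ e0 := fun h => by rw [(hnone e).mpr h] at h1; simp at h1
    have hf0 : f ≠ e0 := fun h => by rw [(hnone f).mpr h] at h2; simp at h2
    have h3 := hc0 ⟨e, he0⟩ ⟨f, hf0⟩ (fun h => hef (congrArg Subtype.val h)) ⟨u, he, hf⟩
    simp only [hcdef] at h1 h2
    rw [dif_pos he0] at h1
    rw [dif_pos hf0] at h2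
    exact h3 (Option.some.inj (h1.trans h2.symm))
  obtain ⟨x, y, hxy⟩ : ∃ x y, G.ends e0 = s(x, y) := by
    induction h : G.ends e0 using Sym2.ind with
    | _ x y => exact ⟨x, y, rfl⟩
  have hext : ∀ c' : E → Option (Fin k), G.PP c' → (∀ e, c' e = none ↔ e = e0) → ∀ a,
      G.Miss c' x a → G.Miss c' y a → False := by
    intro c' hc' hn' a hxa hya
    apply hG
    apply G.colorable_of_total (fun e => if e = e0 then some a else c' e)
    · intro e f u b he hf h1 h2
      dsimp only at h1 h2
      have hm : u ∈ G.ends e0 → G.Miss c' u a := by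
        intro hu
        rw [hxy, Sym2.mem_iff] at hu
        rcases hu with rfl | rfl
        · exact hxa
        · exact hya
      split_ifs at h1 with h3 <;> split_ifs at h2 with h4
      · rw [h3, h4]
      · exfalso
        rw [h3] at he
        have := Option.some.inj h1
        rw [← this] at h2
        exact hm he f hf h2
      · exfalso
        rw [h4] at hf
        have := Option.some.inj h2
        rw [← this] at h1
        exact hm hf e he h1
      · exact hc' e f u b he hf h1 h2
    · intro e
      split_ifs with h3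
      · simp
      · rw [Ne, hn' e]; exact h3
  obtain ⟨α, hα⟩ := G.exists_miss c x (hdeg x) hk
  obtain ⟨β, hβ⟩ := G.exists_miss c y (hdeg y) hk
  by_cases hαβ : α = β
  · subst hαβ
    exact (hext c hc hnone α hα hβ).elim
  by_cases hyc : ∃ m0 : ℤ, y = ((G.iv hc α * G.iv hc β) ^ m0) x
  · obtain ⟨m0, hm0⟩ := hyc
    obtain ⟨l, v, f, c', hl, hodd, hst⟩ := G.extract hc hxy hnone hαβ hα hβ m0 hm0
    exact ⟨l, v, f, α, β, c', hl, hodd, hst⟩
  · exfalso
    obtain ⟨c', h1, h2, h3, h4, h5⟩ := G.swap_comp hc α β x hα
    exact hext c' h1 (fun e => by rw [h2, hnone]) β h4 (h5 y hyc β hβ)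

end Pool.Agent.W52.KG.STA
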